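import Mathlib

/-!
The value of the min-max-removal game on an arbitrary colored forest poset.
-/

namespace Pool.Agent.Results.MP_488bb9_co.ForestFormula

/-- Colored forest posets (up to isomorphism). `nil` is the empty poset. `cons c K R` is the
disjoint union of a tree poset and of the forest poset `R`; the root of the tree has colour `c`
(`true` is white, `false` is black) and the elements above the root form the forest poset `K`. -/
inductive Forest : Type
  | nil : Forest
  | cons (c : Bool) (K R : Forest) : Forest

namespace Forest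

/-- Disjoint union of two forest posets. -/
def append : Forest → Forest → Forest
  | nil, S => S
  | cons c K R, S => cons c K (append R S)

/-- The number of elements. -/
def size : Forest → ℕ
  | nil => 0
  | cons _ K R => 1 + size K + size R

/-- `DelMax c P Q`: `Q` arises from `P` by deleting a maximal element of colour `c`. -/
inductive DelMax (c : Bool) : Forest → Forest → Prop
  | leaf (R : Forest) : DelMax c (cons c nil R) R
  | above (d : Bool) {K K' : Forest} (R : Forest) (h : DelMax c K K') :
      DelMax c (cons d K R) (cons d K' R)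
  | beside (d : Bool) (K : Forest) {R R' : Forest} (h : DelMax c R R') :
      DelMax c (cons d K R) (cons d K R')

/-- `DelMin c P Q`: `Q` arises from `P` by deleting a minimal element (a root) of colour `c`. -/
inductive DelMin (c : Bool) : Forest → Forest → Prop
  | root (K R : Forest) : DelMin c (cons c K R) (append K R)
  | beside (d : Bool) (K : Forest) {R R' : Forest} (h : DelMin c R R') :
      DelMin c (cons d K R) (cons d K R')

theorem size_append (P Q : Forest) : (append P Q).size = P.size + Q.size := by
  induction P with
  | nil => simp [append, size]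
  | cons c K R _ ih => simp [append, size, ih]; omega

theorem DelMax.size_lt {c : Bool} {P Q : Forest} (h : DelMax c P Q) : Q.size < P.size := by
  induction h with
  | leaf R => simp [size]
  | above d R _ ih => simp only [size]; omega
  | beside d K _ ih => simp only [size]; omega

theorem DelMin.size_lt {c : Bool} {P Q : Forest} (h : DelMin c P Q) : Q.size < P.size := by
  induction h with
  | root K R => simp only [size, size_append]; omega
  | beside d K _ ih => simp only [size]; omega

end Forest

open Forest

/-- Positions of the disjunctive sum of the min-max-removal game on `P` and of the integer `k`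
(`k` free moves for White if `k > 0`, `-k` free moves for Black if `k < 0`). -/
structure Pos where
  /-- the colored forest poset -/
  P : Forest
  /-- the integer summand -/
  k : ℤ

/-- `Move p s t`: player `p` (`true` is White, `false` is Black) can move from `s` to `t`: either
delete a maximal or minimal element of colour `p`, or use one free move. -/
def Move (p : Bool) (s t : Pos) : Prop :=
  (t.k = s.k ∧ (DelMax p s.P t.P ∨ DelMin p s.P t.P)) ∨
    (t.P = s.P ∧ (if p then 0 < s.k ∧ t.k = s.k - 1 else s.k < 0 ∧ t.k = s.k + 1))

theorem Move.lt {p : Bool} {s t : Pos} (h : Move p s t) :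
    t.P.size + t.k.natAbs < s.P.size + s.k.natAbs := by
  rcases h with ⟨h1, h2 | h2⟩ | ⟨h1, h2⟩
  · have := h2.size_lt; rw [h1]; omega
  · have := h2.size_lt; rw [h1]; omega
  · rw [h1]
    cases p
    · simp only [Bool.false_eq_true, if_false] at h2; omega
    · simp only [if_true] at h2; omega

/-- Player `p`, moving first, wins from `s` (a player who cannot move loses). -/
def WinsFirst (p : Bool) (s : Pos) : Prop :=
  ∃ t, ∃ _ : Move p s t, ¬ WinsFirst (!p) t
termination_by s.P.size + s.k.natAbs
decreasing_by
  rename_i h
  exact h.lt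

/-- The min-max-removal game on `P` has Conway value `n`: the sum of the game on `P` and of the
integer `-n` is a win for the player who moves second, whoever moves first. -/
def HasValue (P : Forest) (n : ℤ) : Prop := ∀ p, ¬ WinsFirst p ⟨P, -n⟩

namespace Forest

/-- `+1` for white, `-1` for black. -/
def sgn (c : Bool) : ℤ := if c then 1 else -1

/-- All the roots of the forest have colour `c`. -/
def Roots (c : Bool) : Forest → Prop
  | nil => True
  | cons d _ R => d = c ∧ Roots c R

/-- A root of colour `c` put below the forest is not the bottom of a blocking triple: above a root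
of colour `c` of the forest there are only covers of colour `c`. -/
def Free (c : Bool) : Forest → Prop
  | nil => True
  | cons d K R => (d = c → Roots c K) ∧ Free c R

/-- The forest contains no blocking triple. -/
def NoBlock : Forest → Prop
  | nil => True
  | cons c K R => (Free c K ∧ NoBlock K) ∧ NoBlock R

open Classical in
/-- `w - b` computed on the essential part: the sum of `sgn` over all the elements `x` such that
there is no blocking triple among the elements `≥ x`. -/
noncomputable def ess : Forest → ℤ
  | nil => 0
  | cons c K R => (if Free c K ∧ NoBlock K then sgn c else 0) + ess K + ess R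

open Classical in
/-- The contribution of the elements outside the essential part. -/
noncomputable def low : Forest → ℤ
  | nil => 0
  | cons c K R =>
      (if Free c K ∧ NoBlock K then 0
        else if c then max 0 (low K + 1) else min 0 (low K - 1)) + low R


/-! ### Basic facts -/

theorem free_append (c : Bool) (P Q : Forest) : Free c (append P Q) ↔ Free c P ∧ Free c Q := by
  induction P with
  | nil => simp [append, Free]
  | cons d K R _ ih => simp only [append, Free, ih, and_assoc]

theorem noBlock_append (P Q : Forest) : NoBlock (append P Q) ↔ NoBlock P ∧ NoBlock Q := by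
  induction P with
  | nil => simp [append, NoBlock]
  | cons d K R _ ih => simp only [append, NoBlock, ih, and_assoc]

theorem ess_append (P Q : Forest) : ess (append P Q) = ess P + ess Q := by
  induction P with
  | nil => simp [append, ess]
  | cons d K R _ ih => simp only [append, ess, ih]; omega

theorem low_append (P Q : Forest) : low (append P Q) = low P + low Q := by
  induction P with
  | nil => simp [append, low]
  | cons d K R _ ih => simp only [append, low, ih]; omega

/-- `Ok c K`: the tree with root of colour `c` and the forest `K` above has no blocking triple. -/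
def Ok (c : Bool) (K : Forest) : Prop := Free c K ∧ NoBlock K

theorem ess_cons_ok {c : Bool} {K : Forest} (h : Ok c K) (R : Forest) :
    ess (cons c K R) = sgn c + ess K + ess R := by
  rw [ess, if_pos (show Free c K ∧ NoBlock K from h)]

theorem ess_cons_not {c : Bool} {K : Forest} (h : ¬ Ok c K) (R : Forest) :
    ess (cons c K R) = ess K + ess R := by
  rw [ess, if_neg (show ¬ (Free c K ∧ NoBlock K) from h)]; ring

theorem low_cons_ok {c : Bool} {K : Forest} (h : Ok c K) (R : Forest) :
    low (cons c K R) = low R := by
  rw [low, if_pos (show Free c K ∧ NoBlock K from h)]; ring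

theorem low_cons_true {K : Forest} (h : ¬ Ok true K) (R : Forest) :
    low (cons true K R) = max 0 (low K + 1) + low R := by
  rw [low, if_neg (show ¬ (Free true K ∧ NoBlock K) from h)]; simp

theorem low_cons_false {K : Forest} (h : ¬ Ok false K) (R : Forest) :
    low (cons false K R) = min 0 (low K - 1) + low R := by
  rw [low, if_neg (show ¬ (Free false K ∧ NoBlock K) from h)]; simp

theorem low_of_noBlock {P : Forest} (h : NoBlock P) : low P = 0 := by
  induction P with
  | nil => rfl
  | cons c K R _ ih => rw [low_cons_ok h.1, ih h.2]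

/-- All elements are white. -/
def White : Forest → Prop
  | nil => True
  | cons c K R => c = true ∧ White K ∧ White R

theorem White.roots {P : Forest} (h : White P) : Roots true P := by
  induction P with
  | nil => trivial
  | cons c K R _ ih => exact ⟨h.1, ih h.2.2⟩

theorem White.free {P : Forest} (h : White P) : Free true P := by
  induction P with
  | nil => trivial
  | cons c K R _ ih => exact ⟨fun _ => h.2.1.roots, ih h.2.2⟩

theorem White.noBlock {P : Forest} (h : White P) : NoBlock P := by
  induction P with
  | nil => trivial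
  | cons c K R ih1 ih =>
    refine ⟨⟨?_, ih1 h.2.1⟩, ih h.2.2⟩
    rw [h.1]; exact h.2.1.free

theorem white_of {P : Forest} (h1 : Roots true P) (h2 : Free true P) (h3 : NoBlock P) :
    White P := by
  induction P with
  | nil => trivial
  | cons c K R ih1 ih2 =>
    obtain ⟨hc, hR⟩ := h1
    subst hc
    exact ⟨rfl, ih1 (h2.1 rfl) h3.1.1 h3.1.2, ih2 hR h2.2 h3.2⟩

/-! ### Deleting a white maximal element -/

theorem DelMax.white {P Q : Forest} (h : DelMax true P Q) (hQ : White Q) : White P := by
  induction h with
  | leaf R => exact ⟨rfl, trivial, hQ⟩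
  | above d R _ ih => exact ⟨hQ.1, ih hQ.2.1, hQ.2.2⟩
  | beside d K _ ih => exact ⟨hQ.1, hQ.2.1, ih hQ.2.2⟩

theorem DelMax.roots_back {P Q : Forest} (h : DelMax true P Q) (hQ : Roots true Q) :
    Roots true P := by
  induction h with
  | leaf R => exact ⟨rfl, hQ⟩
  | above d R _ ih => exact ⟨hQ.1, hQ.2⟩
  | beside d K _ ih => exact ⟨hQ.1, ih hQ.2⟩

theorem DelMax.roots {c e : Bool} {P Q : Forest} (h : DelMax c P Q) (hP : Roots e P) :
    Roots e Q := by
  induction h with
  | leaf R => exact hP.2
  | above d R _ ih => exact ⟨hP.1, hP.2⟩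
  | beside d K _ ih => exact ⟨hP.1, ih hP.2⟩

theorem DelMax.free {c e : Bool} {P Q : Forest} (h : DelMax c P Q) (hP : Free e P) :
    Free e Q := by
  induction h with
  | leaf R => exact hP.2
  | above d R h ih => exact ⟨fun hd => h.roots (hP.1 hd), hP.2⟩
  | beside d K _ ih => exact ⟨hP.1, ih hP.2⟩

theorem DelMax.noBlock {c : Bool} {P Q : Forest} (h : DelMax c P Q) (hP : NoBlock P) :
    NoBlock Q := by
  induction h with
  | leaf R => exact hP.2
  | above d R h ih => exact ⟨⟨h.free hP.1.1, ih hP.1.2⟩, hP.2⟩
  | beside d K _ ih => exact ⟨hP.1, ih hP.2⟩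

theorem DelMax.ok {c e : Bool} {P Q : Forest} (h : DelMax c P Q) (hP : Ok e P) : Ok e Q :=
  ⟨h.free hP.1, h.noBlock hP.2⟩

theorem sgn_true : sgn true = 1 := rfl
theorem sgn_false : sgn false = -1 := rfl

/-- The two inequalities `ess Q ≤ ess P - 1` and, if a white root below becomes unblocked,
`ess Q ≤ ess P - 2`. -/
theorem DelMax.ess_le {P Q : Forest} (h : DelMax true P Q) :
    ess Q ≤ ess P - 1 ∧ (Ok true Q → ¬ Ok true P → ess Q ≤ ess P - 2) := by
  induction h with
  | leaf R =>
    have hn : Ok true nil := ⟨trivial, trivial⟩
    refine ⟨?_, fun h1 h2 => ?_⟩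
    · rw [ess_cons_ok hn, sgn_true]; simp [ess]
    · exact absurd ⟨⟨fun _ => trivial, h1.1⟩, ⟨⟨trivial, trivial⟩, h1.2⟩⟩ h2
  | @above d K K' R h ih =>
    obtain ⟨ih1, ih2⟩ := ih
    by_cases hK : Ok d K
    · have hK' : Ok d K' := h.ok hK
      rw [ess_cons_ok hK, ess_cons_ok hK']
      refine ⟨by omega, fun h1 h2 => ?_⟩
      exfalso
      apply h2
      refine ⟨⟨fun hd => h.roots_back (h1.1.1 hd), h1.1.2⟩, ⟨hK, h1.2.2⟩⟩
    · rw [ess_cons_not hK]
      by_cases hK' : Ok d K'
      · rw [ess_cons_ok hK']
        cases d
        · rw [sgn_false]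
          exact ⟨by omega, fun _ _ => by omega⟩
        · rw [sgn_true]
          have := ih2 hK' hK
          refine ⟨by omega, fun h1 _ => ?_⟩
          exfalso
          apply hK
          have hw : White K' := white_of (h1.1.1 rfl) hK'.1 hK'.2
          have hw' := h.white hw
          exact ⟨hw'.free, hw'.noBlock⟩
      · rw [ess_cons_not hK']
        exact ⟨by omega, fun h1 _ => absurd h1.2.1 hK'⟩
  | @beside d K R R' h ih =>
    obtain ⟨ih1, ih2⟩ := ih
    have key : ess (cons d K R') - ess (cons d K R) = ess R' - ess R := by
      by_cases hK : Ok d K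
      · rw [ess_cons_ok hK, ess_cons_ok hK]; ring
      · rw [ess_cons_not hK, ess_cons_not hK]; ring
    refine ⟨by omega, fun h1 h2 => ?_⟩
    have : ess R' ≤ ess R - 2 := by
      apply ih2 ⟨h1.1.2, h1.2.2⟩
      intro h3
      exact h2 ⟨⟨h1.1.1, h3.1⟩, ⟨h1.2.1, h3.2⟩⟩
    omega

theorem DelMax.val_le {P Q : Forest} (h : DelMax true P Q) :
    ess Q + low Q ≤ ess P + low P - 1 := by
  induction h with
  | leaf R =>
    have hn : Ok true nil := ⟨trivial, trivial⟩
    rw [ess_cons_ok hn, low_cons_ok hn, sgn_true]; simp [ess]
  | @above d K K' R h ih =>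
    obtain ⟨ih1, ih2⟩ := h.ess_le
    by_cases hK : Ok d K
    · have hK' : Ok d K' := h.ok hK
      rw [ess_cons_ok hK, ess_cons_ok hK', low_cons_ok hK, low_cons_ok hK']
      omega
    · by_cases hK' : Ok d K'
      · rw [ess_cons_not hK, ess_cons_ok hK', low_cons_ok hK']
        have h0 : low K' = 0 := low_of_noBlock hK'.2
        cases d
        · rw [low_cons_false hK, sgn_false]; omega
        · have := ih2 hK' hK
          rw [low_cons_true hK, sgn_true]; omega
      · rw [ess_cons_not hK, ess_cons_not hK']
        cases d
        · rw [low_cons_false hK, low_cons_false hK']; omega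
        · rw [low_cons_true hK, low_cons_true hK']; omega
  | @beside d K R R' h ih =>
    by_cases hK : Ok d K
    · rw [ess_cons_ok hK, ess_cons_ok hK, low_cons_ok hK, low_cons_ok hK]; omega
    · rw [ess_cons_not hK, ess_cons_not hK]
      cases d
      · rw [low_cons_false hK, low_cons_false hK]; omega
      · rw [low_cons_true hK, low_cons_true hK]; omega

theorem DelMin.val_le {P Q : Forest} (h : DelMin true P Q) :
    ess Q + low Q ≤ ess P + low P - 1 := by
  induction h with
  | root K R =>
    rw [ess_append, low_append]
    by_cases hK : Ok true K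
    · rw [ess_cons_ok hK, low_cons_ok hK, low_of_noBlock hK.2, sgn_true]; omega
    · rw [ess_cons_not hK, low_cons_true hK]; omega
  | @beside d K R R' h ih =>
    by_cases hK : Ok d K
    · rw [ess_cons_ok hK, ess_cons_ok hK, low_cons_ok hK, low_cons_ok hK]; omega
    · rw [ess_cons_not hK, ess_cons_not hK]
      cases d
      · rw [low_cons_false hK, low_cons_false hK]; omega
      · rw [low_cons_true hK, low_cons_true hK]; omega

/-! ### Good white moves -/

/-- the number of black roots -/
def nb : Forest → ℤ
  | nil => 0
  | cons c _ R => (if c then 0 else 1) + nb R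

theorem nb_nonneg (P : Forest) : 0 ≤ nb P := by
  induction P with
  | nil => simp [nb]
  | cons c K R _ ih => cases c <;> simp [nb] <;> omega

theorem roots_of_nb {P : Forest} (h : nb P ≤ 0) : Roots true P := by
  induction P with
  | nil => trivial
  | cons c K R _ ih =>
    have := nb_nonneg R
    cases c
    · simp [nb] at h; omega
    · simp only [nb, if_true] at h; exact ⟨rfl, ih (by omega)⟩

theorem White.exists_delMax {P : Forest} (h : White P) (hne : P ≠ nil) :
    ∃ Q, DelMax true P Q := by
  induction P with
  | nil => exact absurd rfl hne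
  | cons c K R ih1 _ =>
    obtain ⟨hc, hK, _⟩ := h
    subst hc
    by_cases hK0 : K = nil
    · subst hK0; exact ⟨_, DelMax.leaf R⟩
    · obtain ⟨Q, hQ⟩ := ih1 hK hK0
      exact ⟨_, DelMax.above true R hQ⟩

theorem ess_of_blackMax {P : Forest} (h : NoBlock P) (hno : ¬ ∃ Q, DelMax true P Q) :
    ess P + nb P ≤ 0 := by
  induction P with
  | nil => simp [ess, nb]
  | cons c K R ih1 ih2 =>
    have hR : ess R + nb R ≤ 0 := ih2 h.2 (fun ⟨Q, hQ⟩ => hno ⟨_, DelMax.beside c K hQ⟩)
    have hK : ess K + nb K ≤ 0 := ih1 h.1.2 (fun ⟨Q, hQ⟩ => hno ⟨_, DelMax.above c R hQ⟩)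
    have hok : Ok c K := h.1
    have hnn := nb_nonneg K
    rw [ess_cons_ok hok]
    cases c
    · simp only [nb, sgn_false, Bool.false_eq_true, if_false]; omega
    · simp only [nb, sgn_true, if_true]
      have : 1 ≤ nb K := by
        by_contra hlt
        have hw : White K := white_of (roots_of_nb (by omega)) hok.1 hok.2
        by_cases hK0 : K = nil
        · subst hK0; exact hno ⟨_, DelMax.leaf R⟩
        · obtain ⟨Q, hQ⟩ := hw.exists_delMax hK0
          exact hno ⟨_, DelMax.above true R hQ⟩
      omega

/-- A good deletion of a white maximal element. -/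
def Good (P Q : Forest) : Prop :=
  DelMax true P Q ∧ ess Q = ess P - 1 ∧ low Q = low P ∧ ∀ e, Ok e Q → Ok e P

theorem DelMax.ess_of_noBlock {P Q : Forest} (h : DelMax true P Q) (hP : NoBlock P) :
    ess Q = ess P - 1 := by
  induction h with
  | leaf R =>
    have hn : Ok true nil := ⟨trivial, trivial⟩
    rw [ess_cons_ok hn, sgn_true]; simp [ess]
  | @above d K K' R h ih =>
    have hK : Ok d K := hP.1
    rw [ess_cons_ok hK, ess_cons_ok (h.ok hK), ih hK.2]; ring
  | @beside d K R R' h ih =>
    have hK : Ok d K := hP.1
    rw [ess_cons_ok hK, ess_cons_ok hK, ih hP.2]; ring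

/-- deleting above a root of an unblocked tree -/
theorem good_above_ok {d : Bool} {K K' R : Forest} (hK : Ok d K) (h : DelMax true K K')
    (hr : Roots d K' → Roots d K) : Good (cons d K R) (cons d K' R) := by
  refine ⟨DelMax.above d R h, ?_, ?_, ?_⟩
  · rw [ess_cons_ok hK, ess_cons_ok (h.ok hK), h.ess_of_noBlock hK.2]; ring
  · rw [low_cons_ok hK, low_cons_ok (h.ok hK)]
  · rintro e ⟨⟨h1, h2⟩, ⟨_, h4⟩⟩
    refine ⟨⟨fun hd => ?_, h2⟩, ⟨hK, h4⟩⟩
    subst hd
    exact hr (h1 rfl)

theorem good_above_not {d : Bool} {K K' R : Forest} (hK : ¬ Ok d K) (h : Good K K') :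
    Good (cons d K R) (cons d K' R) := by
  obtain ⟨h1, h2, h3, h4⟩ := h
  have hK' : ¬ Ok d K' := fun h5 => hK (h4 d h5)
  refine ⟨DelMax.above d R h1, ?_, ?_, ?_⟩
  · rw [ess_cons_not hK, ess_cons_not hK', h2]; ring
  · cases d
    · rw [low_cons_false hK, low_cons_false hK', h3]
    · rw [low_cons_true hK, low_cons_true hK', h3]
  · rintro e ⟨_, ⟨h5, _⟩⟩
    exact absurd h5 hK'

theorem good_beside {d : Bool} {K R R' : Forest} (h : Good R R') :
    Good (cons d K R) (cons d K R') := by
  obtain ⟨h1, h2, h3, h4⟩ := h
  refine ⟨DelMax.beside d K h1, ?_, ?_, ?_⟩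
  · by_cases hK : Ok d K
    · rw [ess_cons_ok hK, ess_cons_ok hK, h2]; ring
    · rw [ess_cons_not hK, ess_cons_not hK, h2]; ring
  · by_cases hK : Ok d K
    · rw [low_cons_ok hK, low_cons_ok hK, h3]
    · cases d
      · rw [low_cons_false hK, low_cons_false hK, h3]
      · rw [low_cons_true hK, low_cons_true hK, h3]
  · rintro e ⟨⟨h5, h6⟩, ⟨h7, h8⟩⟩
    obtain ⟨h9, h10⟩ := h4 e ⟨h6, h8⟩
    exact ⟨⟨h5, h9⟩, ⟨h7, h10⟩⟩

theorem good_leaf (R : Forest) : Good (cons true nil R) R := by
  have hn : Ok true nil := ⟨trivial, trivial⟩
  refine ⟨DelMax.leaf R, ?_, ?_, ?_⟩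
  · rw [ess_cons_ok hn, sgn_true]; simp [ess]
  · rw [low_cons_ok hn]
  · rintro e ⟨h1, h2⟩
    exact ⟨⟨fun _ => trivial, h1⟩, ⟨hn, h2⟩⟩

theorem exists_good (P : Forest) :
    (1 ≤ ess P → ∃ Q, Good P Q) ∧
    (2 ≤ ess P → ∃ Q, Good P Q ∧ (Roots false Q → Roots false P)) := by
  induction P with
  | nil => simp [ess]
  | cons c K R ihK ihR =>
    -- a good move above the root, if the tree contributes at least one
    have tree : 1 ≤ ess (cons c K R) - ess R → K ≠ nil → ∃ K', Good (cons c K R) (cons c K' R) := by
      intro h1 hK0
      by_cases hK : Ok c K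
      · rw [ess_cons_ok hK] at h1
        cases c
        · rw [sgn_false] at h1
          obtain ⟨K', hg, hr⟩ := ihK.2 (by omega)
          exact ⟨K', good_above_ok hK hg.1 hr⟩
        · rw [sgn_true] at h1
          have : ∃ K', DelMax true K K' := by
            by_contra hno
            have h2 := ess_of_blackMax hK.2 hno
            have h3 := nb_nonneg K
            have hw : White K := white_of (roots_of_nb (by omega)) hK.1 hK.2
            exact hno (hw.exists_delMax hK0)
          obtain ⟨K', hK'⟩ := this
          exact ⟨K', good_above_ok hK hK' hK'.roots_back⟩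
      · rw [ess_cons_not hK] at h1
        obtain ⟨K', hg⟩ := ihK.1 (by omega)
        exact ⟨K', good_above_not hK hg⟩
    have hnil : K = nil → c = false → ess (cons c K R) - ess R = -1 := by
      rintro rfl rfl
      have hn : Ok false nil := ⟨trivial, trivial⟩
      rw [ess_cons_ok hn, sgn_false]; simp [ess]
    have hnil' : K = nil → c = true → ess (cons c K R) - ess R = 1 := by
      rintro rfl rfl
      have hn : Ok true nil := ⟨trivial, trivial⟩
      rw [ess_cons_ok hn, sgn_true]; simp [ess]
    refine ⟨fun h => ?_, fun h => ?_⟩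
    · by_cases hR : 1 ≤ ess R
      · obtain ⟨R', hg⟩ := ihR.1 hR
        exact ⟨_, good_beside hg⟩
      · by_cases hK0 : K = nil
        · cases c
          · have := hnil hK0 rfl; omega
          · subst hK0; exact ⟨_, good_leaf R⟩
        · obtain ⟨K', hg⟩ := tree (by omega) hK0
          exact ⟨_, hg⟩
    · cases c
      · by_cases ht : 1 ≤ ess (cons false K R) - ess R
        · by_cases hK0 : K = nil
          · have := hnil hK0 rfl; omega
          · obtain ⟨K', hg⟩ := tree ht hK0
            exact ⟨_, hg, fun h5 => ⟨rfl, h5.2⟩⟩
        · obtain ⟨R', hg, hr⟩ := ihR.2 (by omega)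
          exact ⟨_, good_beside hg, fun h5 => ⟨rfl, hr h5.2⟩⟩
      · by_cases hK0 : K = nil
        · have := hnil' hK0 rfl
          obtain ⟨R', hg⟩ := ihR.1 (by omega)
          exact ⟨_, good_beside hg, fun h5 => absurd h5.1 (by simp)⟩
        · by_cases hR : 1 ≤ ess R
          · obtain ⟨R', hg⟩ := ihR.1 hR
            exact ⟨_, good_beside hg, fun h5 => absurd h5.1 (by simp)⟩
          · obtain ⟨K', hg⟩ := tree (by omega) hK0
            exact ⟨_, hg, fun h5 => absurd h5.1 (by simp)⟩

theorem exists_delMin {P : Forest} (h : 1 ≤ low P) :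
    ∃ Q, DelMin true P Q ∧ ess Q + low Q = ess P + low P - 1 := by
  induction P with
  | nil => simp [low] at h
  | cons c K R _ ihR =>
    by_cases hR : 1 ≤ low R
    · obtain ⟨Q, hQ, he⟩ := ihR hR
      refine ⟨_, DelMin.beside c K hQ, ?_⟩
      by_cases hK : Ok c K
      · rw [ess_cons_ok hK, ess_cons_ok hK, low_cons_ok hK, low_cons_ok hK]; omega
      · rw [ess_cons_not hK, ess_cons_not hK]
        cases c
        · rw [low_cons_false hK, low_cons_false hK]; omega
        · rw [low_cons_true hK, low_cons_true hK]; omega
    · by_cases hK : Ok c K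
      · rw [low_cons_ok hK] at h; omega
      · cases c
        · rw [low_cons_false hK] at h; omega
        · refine ⟨_, DelMin.root K R, ?_⟩
          rw [low_cons_true hK] at h ⊢
          rw [ess_append, low_append, ess_cons_not hK]; omega

theorem exists_white {P : Forest} (h : 1 ≤ ess P + low P) :
    ∃ Q, (DelMax true P Q ∨ DelMin true P Q) ∧ ess Q + low Q = ess P + low P - 1 := by
  by_cases h1 : 1 ≤ ess P
  · obtain ⟨Q, hQ⟩ := (exists_good P).1 h1
    exact ⟨Q, Or.inl hQ.1, by rw [hQ.2.1, hQ.2.2.1]; ring⟩
  · obtain ⟨Q, hQ, he⟩ := exists_delMin (P := P) (by omega)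
    exact ⟨Q, Or.inr hQ, he⟩

/-! ### Exchanging the colours -/

/-- Exchange the colours. -/
def swap : Forest → Forest
  | nil => nil
  | cons c K R => cons (!c) (swap K) (swap R)

theorem swap_swap (P : Forest) : swap (swap P) = P := by
  induction P with
  | nil => rfl
  | cons c K R ih1 ih2 => simp [swap, ih1, ih2]

theorem swap_append (P Q : Forest) : swap (append P Q) = append (swap P) (swap Q) := by
  induction P with
  | nil => rfl
  | cons c K R _ ih => simp [swap, append, ih]

theorem roots_swap (c : Bool) (P : Forest) : Roots (!c) (swap P) ↔ Roots c P := by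
  induction P with
  | nil => simp [swap, Roots]
  | cons d K R _ ih => simp only [swap, Roots, ih]; cases c <;> cases d <;> simp

theorem free_swap (c : Bool) (P : Forest) : Free (!c) (swap P) ↔ Free c P := by
  induction P with
  | nil => simp [swap, Free]
  | cons d K R _ ih =>
    simp only [swap, Free, ih, roots_swap]; cases c <;> cases d <;> simp

theorem noBlock_swap (P : Forest) : NoBlock (swap P) ↔ NoBlock P := by
  induction P with
  | nil => simp [swap, NoBlock]
  | cons d K R ih1 ih2 => simp only [swap, NoBlock, ih1, ih2, free_swap]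

theorem ok_swap (c : Bool) (P : Forest) : Ok (!c) (swap P) ↔ Ok c P := by
  simp only [Ok, free_swap, noBlock_swap]

theorem ess_swap (P : Forest) : ess (swap P) = - ess P := by
  induction P with
  | nil => simp [swap, ess]
  | cons c K R ih1 ih2 =>
    by_cases hK : Ok c K
    · rw [swap, ess_cons_ok hK, ess_cons_ok ((ok_swap c K).2 hK), ih1, ih2]
      cases c <;> simp [sgn] <;> ring
    · rw [swap, ess_cons_not hK, ess_cons_not (fun h => hK ((ok_swap c K).1 h)), ih1, ih2]; ring

theorem low_swap (P : Forest) : low (swap P) = - low P := by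
  induction P with
  | nil => simp [swap, low]
  | cons c K R ih1 ih2 =>
    by_cases hK : Ok c K
    · rw [swap, low_cons_ok hK, low_cons_ok ((ok_swap c K).2 hK), ih2]
    · have hK' : ¬ Ok (!c) (swap K) := fun h => hK ((ok_swap c K).1 h)
      cases c
      · rw [swap, low_cons_false hK]
        rw [show (!false) = true from rfl] at hK' ⊢
        rw [low_cons_true hK', ih1, ih2]; omega
      · rw [swap, low_cons_true hK]
        rw [show (!true) = false from rfl] at hK' ⊢
        rw [low_cons_false hK', ih1, ih2]; omega

theorem DelMax.swap {c : Bool} {P Q : Forest} (h : DelMax c P Q) :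
    DelMax (!c) P.swap Q.swap := by
  induction h with
  | leaf R => exact DelMax.leaf _
  | above d R _ ih => exact DelMax.above _ _ ih
  | beside d K _ ih => exact DelMax.beside _ _ ih

theorem DelMin.swap {c : Bool} {P Q : Forest} (h : DelMin c P Q) :
    DelMin (!c) P.swap Q.swap := by
  induction h with
  | root K R => rw [swap_append]; exact DelMin.root _ _
  | beside d K _ ih => exact DelMin.beside _ _ ih

theorem black_le {P Q : Forest} (h : DelMax false P Q ∨ DelMin false P Q) :
    ess P + low P + 1 ≤ ess Q + low Q := by
  have : ess Q.swap + low Q.swap ≤ ess P.swap + low P.swap - 1 := by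
    rcases h with h | h
    · exact DelMax.val_le h.swap
    · exact DelMin.val_le h.swap
  rw [ess_swap, ess_swap, low_swap, low_swap] at this
  omega

theorem white_le {P Q : Forest} (h : DelMax true P Q ∨ DelMin true P Q) :
    ess Q + low Q ≤ ess P + low P - 1 := by
  rcases h with h | h
  · exact h.val_le
  · exact h.val_le

theorem exists_black {P : Forest} (h : ess P + low P ≤ -1) :
    ∃ Q, (DelMax false P Q ∨ DelMin false P Q) ∧ ess Q + low Q = ess P + low P + 1 := by
  obtain ⟨Q, hQ, he⟩ := exists_white (P := P.swap) (by rw [ess_swap, low_swap]; omega)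
  refine ⟨Q.swap, ?_, ?_⟩
  · rcases hQ with hQ | hQ
    · left; have := hQ.swap; rwa [swap_swap] at this
    · right; have := hQ.swap; rwa [swap_swap] at this
  · rw [ess_swap, low_swap] at he ⊢; omega

end Forest

theorem winsFirst_iff (s : Pos) :
    (WinsFirst true s ↔ 1 ≤ ess s.P + low s.P + s.k) ∧
    (WinsFirst false s ↔ ess s.P + low s.P + s.k ≤ -1) := by
  induction hn : s.P.size + s.k.natAbs using Nat.strong_induction_on generalizing s with
  | _ n ih =>
    have step : ∀ p t, Move p s t →
        (WinsFirst true t ↔ 1 ≤ ess t.P + low t.P + t.k) ∧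
        (WinsFirst false t ↔ ess t.P + low t.P + t.k ≤ -1) := by
      intro p t hm
      exact ih _ (by rw [← hn]; exact hm.lt) t rfl
    constructor
    · rw [WinsFirst]
      constructor
      · rintro ⟨t, hm, hw⟩
        rw [Bool.not_true, (step _ t hm).2] at hw
        rcases hm with ⟨h1, h2⟩ | ⟨h1, h2⟩
        · have := white_le h2; omega
        · simp only [if_true] at h2
          rw [h1] at hw; omega
      · intro h
        by_cases hk : 0 < s.k
        · have hm : Move true s ⟨s.P, s.k - 1⟩ := Or.inr ⟨rfl, by simp [hk]⟩
          refine ⟨_, hm, ?_⟩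
          rw [Bool.not_true, (step _ _ hm).2]
          simp only; omega
        · obtain ⟨Q, hQ, he⟩ := exists_white (P := s.P) (by omega)
          have hm : Move true s ⟨Q, s.k⟩ := Or.inl ⟨rfl, hQ⟩
          refine ⟨_, hm, ?_⟩
          rw [Bool.not_true, (step _ _ hm).2]
          simp only; omega
    · rw [WinsFirst]
      constructor
      · rintro ⟨t, hm, hw⟩
        rw [Bool.not_false, (step _ t hm).1] at hw
        rcases hm with ⟨h1, h2⟩ | ⟨h1, h2⟩
        · have := black_le h2; omega
        · simp only [Bool.false_eq_true, if_false] at h2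
          rw [h1] at hw; omega
      · intro h
        by_cases hk : s.k < 0
        · have hm : Move false s ⟨s.P, s.k + 1⟩ := Or.inr ⟨rfl, by simp [hk]⟩
          refine ⟨_, hm, ?_⟩
          rw [Bool.not_false, (step _ _ hm).1]
          simp only; omega
        · obtain ⟨Q, hQ, he⟩ := exists_black (P := s.P) (by omega)
          have hm : Move false s ⟨Q, s.k⟩ := Or.inl ⟨rfl, hQ⟩
          refine ⟨_, hm, ?_⟩
          rw [Bool.not_false, (step _ _ hm).1]
          simp only; omega

/-- The value of the min-max-removal game on every colored forest poset. -/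
theorem result (P : Forest) (n : ℤ) : HasValue P n ↔ n = ess P + low P := by
  constructor
  · intro h
    have h1 := h true
    have h2 := h false
    rw [(winsFirst_iff _).1] at h1
    rw [(winsFirst_iff _).2] at h2
    simp only at h1 h2
    omega
  · rintro rfl p
    cases p
    · rw [(winsFirst_iff _).2]; simp only; omega
    · rw [(winsFirst_iff _).1]; simp only; omega

end Pool.Agent.Results.MP_488bb9_co.ForestFormula
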